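import Pool.Agent.Helper10.CR.Goals2

/-!
# Packet CR-STRI (project CR of helper10, MP_ca5fc5_al): strings, case I
-/

universe u v

namespace Pool.Agent.Helper83.CR

open Pool.Agent.Helper10.CR

variable {k : Type u} [Field k]

/-- The condition `![y, s, 0, 0] ∈ Rel`. -/
def rs (k : Type u) [Field k] : RF2 k 4 where
  n := 0
  s := 0
  q := 1
  a := fun i => Fin.elim0 i
  b := fun i => Fin.elim0 i
  c := fun _ => ![![1, 0], ![0, 1], ![0, 0], ![0, 0]]
  d := fun _ _ j => Fin.elim0 j

/-- The condition `![0, 0, y, s] ∈ Rel`. -/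
def rx (k : Type u) [Field k] : RF2 k 4 where
  n := 0
  s := 0
  q := 1
  a := fun i => Fin.elim0 i
  b := fun i => Fin.elim0 i
  c := fun _ => ![![0, 0], ![0, 0], ![1, 0], ![0, 1]]
  d := fun _ _ j => Fin.elim0 j

theorem rs_sat (X : RS k 4) (y s : X.V) : (rs k).Sat X y s ↔ ![y, s, 0, 0] ∈ X.Rel := by
  have e : ∀ (l : Fin 1) (z : Fin 0 → X.V),
      (fun i => (rs k).c l i 0 • y + (rs k).c l i 1 • s + ∑ j, (rs k).d l i j • z j) =
        ![y, s, 0, 0] := by
    intro l z
    have h0 : ∀ i, ∑ j, (rs k).d l i j • z j = 0 := fun i => Finset.sum_eq_zero fun j _ =>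
      Fin.elim0 j
    funext i
    rw [h0]
    fin_cases i <;> simp [rs]
  constructor
  · rintro ⟨z, -, h⟩
    have := h (0 : Fin 1)
    rwa [e] at this
  · intro h
    refine ⟨fun j => Fin.elim0 j, fun i => Fin.elim0 i, fun l => ?_⟩
    rw [e]
    exact h

theorem rx_sat (X : RS k 4) (y s : X.V) : (rx k).Sat X y s ↔ ![0, 0, y, s] ∈ X.Rel := by
  have e : ∀ (l : Fin 1) (z : Fin 0 → X.V),
      (fun i => (rx k).c l i 0 • y + (rx k).c l i 1 • s + ∑ j, (rx k).d l i j • z j) =
        ![0, 0, y, s] := by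
    intro l z
    have h0 : ∀ i, ∑ j, (rx k).d l i j • z j = 0 := fun i => Finset.sum_eq_zero fun j _ =>
      Fin.elim0 j
    funext i
    rw [h0]
    fin_cases i <;> simp [rx]
  constructor
  · rintro ⟨z, -, h⟩
    have := h (0 : Fin 1)
    rwa [e] at this
  · intro h
    refine ⟨fun j => Fin.elim0 j, fun i => Fin.elim0 i, fun l => ?_⟩
    rw [e]
    exact h

/-- The relation of the string. -/
def relT (k : Type u) [Field k] (t : ℤ → Bool) : Submodule k (Fin 4 → (ℤ →₀ k)) where
  carrier := {w | ∀ i : ℤ, w 1 (i + 1) = (if t i = true then w 0 i else 0) ∧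
    (t i = true → w 2 i = 0) ∧ (t i = false → w 3 (i + 1) = w 2 i)}
  zero_mem' := fun i => by simp
  add_mem' := by
    intro w w' h h' i
    obtain ⟨a, b, c⟩ := h i
    obtain ⟨a', b', c'⟩ := h' i
    refine ⟨?_, fun ht => ?_, fun ht => ?_⟩
    · simp only [Pi.add_apply, Finsupp.add_apply, a, a']
      split_ifs <;> simp
    · simp only [Pi.add_apply, Finsupp.add_apply, b ht, b' ht, add_zero]
    · simp only [Pi.add_apply, Finsupp.add_apply, c ht, c' ht]
  smul_mem' := by
    intro r w h i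
    obtain ⟨a, b, c⟩ := h i
    refine ⟨?_, fun ht => ?_, fun ht => ?_⟩
    · simp only [Pi.smul_apply, Finsupp.smul_apply, a]
      split_ifs <;> simp
    · simp only [Pi.smul_apply, Finsupp.smul_apply, b ht, smul_zero]
    · simp only [Pi.smul_apply, Finsupp.smul_apply, c ht]

theorem mem_relT {t : ℤ → Bool} {a b c d : ℤ →₀ k} : ![a, b, c, d] ∈ relT k t ↔
    ∀ i : ℤ, b (i + 1) = (if t i = true then a i else 0) ∧
    (t i = true → c i = 0) ∧ (t i = false → d (i + 1) = c i) := Iff.rfl

theorem xsT (t : ℤ → Bool) (s : ℤ →₀ k) (h : ![0, 0, 0, s] ∈ relT k t) :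
    ∃ y : ℤ →₀ k, ![y, s, 0, 0] ∈ relT k t := by
  classical
  refine ⟨Finsupp.onFinset (s.support.image fun j => j - 1)
    (fun i => if t i = true then s (i + 1) else 0) ?_, ?_⟩
  · intro i hi
    rw [Finset.mem_image]
    refine ⟨i + 1, ?_, by ring⟩
    rw [Finsupp.mem_support_iff]
    intro h0
    apply hi
    rw [h0]
    split_ifs <;> rfl
  · refine mem_relT.2 fun i => ?_
    obtain ⟨-, -, c⟩ := mem_relT.1 h i
    refine ⟨?_, fun _ => rfl, fun _ => rfl⟩
    rw [Finsupp.onFinset_apply]
    split_ifs with ht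
    · rfl
    · exact c (by simpa using ht)

/-- The structure of the string. -/
noncomputable def XT (k : Type u) [Field k] (t : ℤ → Bool) : RS k 4 where
  V := ℤ →₀ k
  Rel := relT k t

theorem pi_XT (t : ℤ → Bool) : PI (XT k t) where
  prod := by
    intro w hw
    refine mem_relT.2 fun i => ?_
    obtain ⟨a, -, -⟩ := hw i
    exact ⟨a, fun _ => rfl, fun _ => rfl⟩
  inj := by
    intro v hv
    refine Finsupp.ext fun j => ?_
    obtain ⟨a, -, -⟩ := mem_relT.1 hv (j - 1)
    rw [sub_add_cancel] at a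
    refine a.trans ?_
    split_ifs <;> rfl
  xs := by
    intro y s h
    refine mem_relT.2 fun i => ?_
    obtain ⟨-, b, -⟩ := mem_relT.1 h i
    refine ⟨?_, fun _ => rfl, fun _ => rfl⟩
    split_ifs with ht
    · exact (b ht).symm
    · rfl
  sx := by
    intro y s h
    refine mem_relT.2 fun i => ?_
    obtain ⟨a, -, -⟩ := mem_relT.1 h i
    refine ⟨?_, fun _ => rfl, fun ht => ?_⟩
    · split_ifs <;> rfl
    · refine a.trans ?_
      rw [ht]
      rfl
  xs' := fun s h => xsT t s h

theorem goalStrI : GoalStrI.{u} := by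
  intro k _
  refine ⟨rs k, rx k, ?_, ?_, ?_⟩
  · intro X hX y s h
    rw [rs_sat]
    exact hX.xs y s ((rx_sat X y s).1 h)
  · intro X hX y s h
    rw [rx_sat]
    exact hX.sx y s ((rs_sat X y s).1 h)
  · intro t
    have hz : ∀ i j : ℤ, (Finsupp.single (i + 1) (1 : k)) (j + 1) = (Finsupp.single i (1 : k)) j := by
      intro i j
      by_cases h : i = j
      · rw [h, Finsupp.single_eq_same, Finsupp.single_eq_same]
      · rw [Finsupp.single_eq_of_ne (by omega), Finsupp.single_eq_of_ne (by omega)]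
    refine ⟨XT k t, pi_XT t, fun i => Finsupp.single i (1 : k), k, inferInstance,
      fun i => Finsupp.applyAddHom i, ?_, ?_, ?_⟩
    · show (Finsupp.single (0 : ℤ) (1 : k)) 0 ≠ 0
      rw [Finsupp.single_eq_same]
      exact one_ne_zero
    · intro i hi
      refine ⟨?_, fun y s h => ?_⟩
      · rw [rs_sat]
        refine mem_relT.2 fun j => ⟨?_, fun _ => rfl, fun _ => rfl⟩
        rw [hz]
        split_ifs with ht
        · rfl
        · exact Finsupp.single_eq_of_ne (fun h => ht (h ▸ hi))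
      · obtain ⟨a, -, -⟩ := mem_relT.1 ((rs_sat _ y s).1 h) i
        rw [hi] at a
        exact a
    · intro i hi
      refine ⟨?_, fun y s h => ?_⟩
      · rw [rx_sat]
        refine mem_relT.2 fun j => ⟨?_, fun ht => ?_, fun _ => hz i j⟩
        · split_ifs <;> rfl
        · refine Finsupp.single_eq_of_ne (fun h => ?_)
          rw [h, hi] at ht
          exact absurd ht (by decide)
      · obtain ⟨-, -, c⟩ := mem_relT.1 ((rx_sat _ y s).1 h) i
        exact c hi

end Pool.Agent.Helper83.CR
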