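import Pool.Agent.Helper88.CR.GoalsB

/-!
MP_69be96_nt, packet CR-CR: the conclusion for real `x`.
-/

set_option autoImplicit false

open Finset Filter Topology

open scoped Classical

namespace Pool.Agent.Helper83.CR

open Pool.Agent.Helper88.CR

lemma half_log {y : ℝ} (hy : 4 ≤ y) : Real.log y / 2 ≤ Real.log (y / 2) := by
  have h1 : Real.log (y / 2) = Real.log y - Real.log 2 := Real.log_div (by linarith) (by norm_num)
  have h2 : Real.log 4 ≤ Real.log y := Real.log_le_log (by norm_num) hy
  have h3 : Real.log 4 = 2 * Real.log 2 := by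
    rw [show (4 : ℝ) = 2 ^ 2 by norm_num, Real.log_pow]
    norm_num
  linarith

lemma quarter_log {x : ℝ} (hx : 16 ≤ x) : Real.log x / 2 ≤ Real.log (x / 4) := by
  have h1 : Real.log (x / 4) = Real.log x - Real.log 4 := Real.log_div (by linarith) (by norm_num)
  have h2 : Real.log 16 ≤ Real.log x := Real.log_le_log (by norm_num) hx
  have h3 : Real.log 16 = 2 * Real.log 4 := by
    rw [show (16 : ℝ) = 4 ^ 2 by norm_num, Real.log_pow]
    norm_num
  linarith

/-- Packet CR-CR. -/
theorem cr (h1 : StmtFR) (h2 : StmtG2) : StmtCR := by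
  obtain ⟨c, hc, h⟩ := h1
  refine ⟨c / 16, by positivity, fun k hk => ?_⟩
  obtain ⟨x0, hx0⟩ := h k hk
  have ev1 : ∀ᶠ x : ℝ in atTop, ‖Real.log x ^ 2‖ ≤ 1 / 2 * ‖id x‖ :=
    (Real.isLittleO_pow_log_id_atTop (n := 2)).bound (by norm_num)
  have t2 : Tendsto (fun x : ℝ => Real.log (Real.log x)) atTop atTop :=
    Real.tendsto_log_atTop.comp Real.tendsto_log_atTop
  have t3 : Tendsto (fun x : ℝ => Real.log (Real.log (Real.log x))) atTop atTop :=
    Real.tendsto_log_atTop.comp t2
  have ev2 : ∀ᶠ x : ℝ in atTop, 4 ≤ Real.log x := Real.tendsto_log_atTop.eventually_ge_atTop 4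
  have ev3 : ∀ᶠ x : ℝ in atTop, 4 ≤ Real.log (Real.log x) := t2.eventually_ge_atTop 4
  have ev4 : ∀ᶠ x : ℝ in atTop, 4 ≤ Real.log (Real.log (Real.log x)) := t3.eventually_ge_atTop 4
  obtain ⟨X, hX⟩ := eventually_atTop.mp (ev1.and (ev2.and (ev3.and ev4)))
  refine ⟨max X (max 16 (2 * x0 + 2)), fun x hx => ?_⟩
  obtain ⟨e1, e2, e3, e4⟩ := hX x (le_trans (le_max_left _ _) hx)
  have hx16 : 16 ≤ x := le_trans (le_trans (le_max_left _ _) (le_max_right _ _)) hx
  have hx0' : 2 * (x0 : ℝ) + 2 ≤ x := le_trans (le_trans (le_max_right _ _) (le_max_right _ _)) hx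
  rw [id, Real.norm_eq_abs, Real.norm_eq_abs, abs_of_nonneg (by positivity : 0 ≤ Real.log x ^ 2),
    abs_of_nonneg (by linarith : 0 ≤ x)] at e1
  set y : ℕ := ⌊x / 2⌋₊ with hy
  have y1 : (y : ℝ) ≤ x / 2 := Nat.floor_le (by linarith)
  have y2 : x / 2 < y + 1 := Nat.lt_floor_add_one _
  have y3 : x / 4 ≤ y := by linarith
  have y4 : x0 ≤ y := by
    have : (x0 : ℝ) ≤ y := by linarith
    exact_mod_cast this
  obtain ⟨n, Y, M, u, v, a1, a2, a3, a4, a5, a6, a7⟩ := hx0 y y4
  have ly1 : Real.log (x / 4) ≤ Real.log y := Real.log_le_log (by linarith) y3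
  have ly2 : Real.log y ≤ Real.log x := Real.log_le_log (by linarith) (by linarith)
  have l1 : Real.log x / 2 ≤ Real.log y := (quarter_log hx16).trans ly1
  have l2 : Real.log (Real.log x) / 2 ≤ Real.log (Real.log y) :=
    (half_log e2).trans (Real.log_le_log (by linarith) l1)
  have l2u : Real.log (Real.log y) ≤ Real.log (Real.log x) :=
    Real.log_le_log (by linarith) ly2
  have l3 : Real.log (Real.log (Real.log x)) / 2 ≤ Real.log (Real.log (Real.log y)) :=
    (half_log e3).trans (Real.log_le_log (by linarith) l2)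
  have l3u : Real.log (Real.log (Real.log y)) ≤ Real.log (Real.log (Real.log x)) :=
    Real.log_le_log (by linarith) l2u
  have l4 : Real.log (Real.log (Real.log (Real.log x))) / 2 ≤
      Real.log (Real.log (Real.log (Real.log y))) :=
    (half_log e4).trans (Real.log_le_log (by linarith) l3)
  have l4p : 0 ≤ Real.log (Real.log (Real.log (Real.log x))) := Real.log_nonneg (by linarith)
  have hrec : (Real.log x * Real.log (Real.log x) ^ 2 *
        Real.log (Real.log (Real.log (Real.log x))) / Real.log (Real.log (Real.log x)) ^ 2) / 16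
      ≤ Rec y := by
    unfold Rec
    have b1 : (Real.log x / 2) * (Real.log (Real.log x) / 2) ^ 2 *
        (Real.log (Real.log (Real.log (Real.log x))) / 2) ≤
        Real.log y * Real.log (Real.log y) ^ 2 * Real.log (Real.log (Real.log (Real.log y))) := by
      have c2 : (Real.log (Real.log x) / 2) ^ 2 ≤ Real.log (Real.log y) ^ 2 :=
        pow_le_pow_left₀ (by linarith) l2 2
      have c3 : (Real.log x / 2) * (Real.log (Real.log x) / 2) ^ 2 ≤
          Real.log y * Real.log (Real.log y) ^ 2 :=
        mul_le_mul l1 c2 (by positivity) (by linarith)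
      exact mul_le_mul c3 l4 (by linarith) (mul_nonneg (by linarith) (sq_nonneg _))
    have b2 : Real.log (Real.log (Real.log y)) ^ 2 ≤ Real.log (Real.log (Real.log x)) ^ 2 :=
      pow_le_pow_left₀ (by linarith) l3u 2
    have b3 : 0 < Real.log (Real.log (Real.log y)) ^ 2 := by
      have : 0 < Real.log (Real.log (Real.log y)) := by linarith
      positivity
    have b0 : 0 ≤ (Real.log x / 2) * (Real.log (Real.log x) / 2) ^ 2 *
        (Real.log (Real.log (Real.log (Real.log x))) / 2) := by
      have : 0 ≤ Real.log x := by linarith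
      positivity
    calc (Real.log x * Real.log (Real.log x) ^ 2 *
        Real.log (Real.log (Real.log (Real.log x))) / Real.log (Real.log (Real.log x)) ^ 2) / 16
        = (Real.log x / 2) * (Real.log (Real.log x) / 2) ^ 2 *
        (Real.log (Real.log (Real.log (Real.log x))) / 2) /
          Real.log (Real.log (Real.log x)) ^ 2 := by ring
      _ ≤ (Real.log x / 2) * (Real.log (Real.log x) / 2) ^ 2 *
        (Real.log (Real.log (Real.log (Real.log x))) / 2) /
          Real.log (Real.log (Real.log y)) ^ 2 :=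
          div_le_div_of_nonneg_left b0 b3 b2
      _ ≤ _ := div_le_div_of_nonneg_right b1 b3.le
  set U : ℕ := ⌈c / k ^ 2 * Rec y⌉₊ with hU
  have hUle : c / k ^ 2 * Rec y ≤ U := Nat.le_ceil _
  have a5' : ∀ a, a + 1 < M → v a + U ≤ u (a + 1) := by
    intro a ha
    have q1 := a5 a ha
    by_cases hp : 0 ≤ c / k ^ 2 * Rec y
    · have hvu : v a ≤ u (a + 1) := by
        have : (v a : ℝ) ≤ u (a + 1) := by linarith
        exact_mod_cast this
      have q2 : U ≤ u (a + 1) - v a := by
        rw [hU]
        apply Nat.ceil_le.mpr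
        rw [Nat.cast_sub hvu]
        linarith
      omega
    · exfalso
      apply hp
      have : 0 ≤ Rec y := le_trans (by
        have : 0 ≤ Real.log x := by linarith
        positivity) hrec
      positivity
  obtain ⟨s, b1, b2⟩ := h2 k n Y M U u v hk a4 a5' a6 a7
  refine ⟨s, ?_, fun i hi => ?_⟩
  · have c1 : (Nat.nth Nat.Prime (s + k) : ℝ) ≤ n + Y := by exact_mod_cast b1
    have c2 : (n : ℝ) ≤ y := by exact_mod_cast a2
    have c3 : Real.log y ^ 2 ≤ Real.log x ^ 2 := by
      apply pow_le_pow_left₀ _ ly2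
      linarith
    linarith
  · have c1 := b2 i hi
    have c2 : (Nat.nth Nat.Prime (s + i) : ℝ) + U + 1 ≤ Nat.nth Nat.Prime (s + i + 1) := by
      exact_mod_cast c1
    have c4 : c / k ^ 2 * ((Real.log x * Real.log (Real.log x) ^ 2 *
        Real.log (Real.log (Real.log (Real.log x))) / Real.log (Real.log (Real.log x)) ^ 2) / 16) ≤
        c / k ^ 2 * Rec y :=
      mul_le_mul_of_nonneg_left hrec (by positivity)
    have c5 : c / 16 / k ^ 2 * (Real.log x * Real.log (Real.log x) ^ 2 *
        Real.log (Real.log (Real.log (Real.log x))) / Real.log (Real.log (Real.log x)) ^ 2) =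
        c / k ^ 2 * ((Real.log x * Real.log (Real.log x) ^ 2 *
        Real.log (Real.log (Real.log (Real.log x))) / Real.log (Real.log (Real.log x)) ^ 2) / 16) := by
      ring
    rw [c5]
    linarith

end Pool.Agent.Helper83.CR
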